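import Pool.Agent.H608R4.KM.Stm

set_option autoImplicit false

namespace Pool.Agent.TH928.KM

open Pool.Agent.H608R4.KM

/-- facts on one cluster -/
lemma one_facts {c s : ℝ} (h : c ^ 2 + s ^ 2 = 1) (hc : 0 < c) :
    c ≤ 1 ∧ 1 - c ≤ s ^ 2 ∧ s ^ 2 ≤ |s| ∧ |s| ≤ 1 ∧ 1 - c ≤ |s| := by
  have h1 : c ≤ 1 := by nlinarith [sq_nonneg s]
  have h2 : c ^ 2 ≤ c := by nlinarith
  have h3 : |s| ≤ 1 := by
    rw [abs_le_one_iff_mul_self_le_one]
    nlinarith [sq_nonneg c]
  have h4 : s ^ 2 ≤ |s| := by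
    have : s ^ 2 = |s| ^ 2 := (sq_abs s).symm
    rw [this]
    nlinarith [abs_nonneg s]
  exact ⟨h1, by linarith, h4, h3, by linarith⟩

/-- product bound -/
lemma le_abs_mul {x y b : ℝ} (h1 : -b ≤ y) (h2 : y ≤ b) : x * y ≤ |x| * b := by
  have h3 : |y| ≤ b := abs_le.2 ⟨h1, h2⟩
  calc x * y ≤ |x * y| := le_abs_self _
    _ = |x| * |y| := abs_mul _ _
    _ ≤ |x| * b := mul_le_mul_of_nonneg_left h3 (abs_nonneg x)

theorem t_P3 : S_P3 := by
  intro c s d t h1 h2 hc hd hc2 hd2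
  obtain ⟨a1, a2, a3, a4, a5⟩ := one_facts h1 hc
  obtain ⟨b1, b2, b3, b4, b5⟩ := one_facts h2 hd
  have hst : |s * t| = |s| * |t| := abs_mul s t
  have hs0 := abs_nonneg s
  have ht0 := abs_nonneg t
  have hCS : (c * d + s * t) ^ 2 + (s * d - c * t) ^ 2 = 1 := by
    linear_combination (d ^ 2 + t ^ 2) * h1 + h2
  have hC1 : c * d + s * t ≤ 1 := by nlinarith [sq_nonneg (s * d - c * t)]
  have hC2 : -1 ≤ c * d + s * t := by nlinarith [sq_nonneg (s * d - c * t)]
  refine ⟨?_, ?_, ?_⟩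
  · have id1 : -((s * d - c * t) * (1 - (s * d - c * t)) - (c * d + s * t) * (s - t)) =
        (s - t) ^ 2 - (s * (1 - c) - t * (1 - d)) + 2 * (s * t) * (1 - (c * d + s * t)) +
          (s * t) * (s - t) + s * ((1 - c) * (1 - d)) - t * ((1 - d) * (1 - c)) := by
      linear_combination s ^ 2 * h2 + t ^ 2 * h1
    rw [id1]
    have e1 : (s - t) ^ 2 ≤ s ^ 2 + t ^ 2 + 2 * |s * t| := by
      have := neg_abs_le (s * t)
      nlinarith
    have e2 : -(s * (1 - c)) ≤ |s| * (1 - c) := by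
      have := mul_le_mul_of_nonneg_right (neg_le_abs s) (show 0 ≤ 1 - c by linarith)
      linarith
    have e3 : t * (1 - d) ≤ |t| * (1 - d) :=
      mul_le_mul_of_nonneg_right (le_abs_self t) (show 0 ≤ 1 - d by linarith)
    have e4 : (s * t) * (1 - (c * d + s * t)) ≤ |s * t| * 2 :=
      le_abs_mul (by linarith) (by linarith)
    have e5 : (s * t) * (s - t) ≤ |s * t| * 2 :=
      le_abs_mul (by linarith [neg_abs_le s, le_abs_self t]) (by linarith [le_abs_self s, neg_abs_le t])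
    have e6 : s * ((1 - c) * (1 - d)) ≤ |s| * |t| := by
      refine le_abs_mul ?_ ?_
      · have : 0 ≤ (1 - c) * (1 - d) := mul_nonneg (by linarith) (by linarith)
        linarith
      · have : (1 - c) * (1 - d) ≤ 1 * |t| := mul_le_mul (by linarith) b5 (by linarith) zero_le_one
        linarith
    have e7 : -t * ((1 - d) * (1 - c)) ≤ |-t| * |s| := by
      refine le_abs_mul ?_ ?_
      · have : 0 ≤ (1 - d) * (1 - c) := mul_nonneg (by linarith) (by linarith)
        linarith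
      · have : (1 - d) * (1 - c) ≤ 1 * |s| := mul_le_mul (by linarith) a5 (by linarith) zero_le_one
        linarith
    rw [abs_neg] at e7
    have e8 : 0 ≤ |s * t| := abs_nonneg _
    have e9 : |t| * |s| = |s * t| := by rw [hst, mul_comm]
    rw [e9] at e7
    rw [← hst] at e6
    linarith
  · have id2 : -((c * d + s * t) * (1 + (c * d + s * t))) - (s * d - c * t) * (s - t) =
        -c - d - (1 - c) * (1 - d) + (s * t) * (-1 - 2 * c * d + c + d) - 2 * (s ^ 2 * t ^ 2) +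
          s ^ 2 * (1 - d) + t ^ 2 * (1 - c) := by
      linear_combination -(1 - t ^ 2) * h1 - c ^ 2 * h2
    rw [id2]
    have e1 : 0 ≤ (1 - c) * (1 - d) := mul_nonneg (by linarith) (by linarith)
    have e2 : (s * t) * (-1 - 2 * c * d + c + d) ≤ |s * t| * 1 := by
      have k1 : 0 ≤ c * (1 - d) := mul_nonneg hc.le (by linarith)
      have k2 : 0 ≤ d * (1 - c) := mul_nonneg hd.le (by linarith)
      have k3 : 0 ≤ c * d := mul_nonneg hc.le hd.le
      exact le_abs_mul (by nlinarith) (by nlinarith)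
    have e3 : s ^ 2 * (1 - d) ≤ s ^ 2 * t ^ 2 := mul_le_mul_of_nonneg_left b2 (sq_nonneg s)
    have e4 : t ^ 2 * (1 - c) ≤ t ^ 2 * s ^ 2 := mul_le_mul_of_nonneg_left a2 (sq_nonneg t)
    have e5 : 0 ≤ |s * t| := abs_nonneg _
    nlinarith
  · have e1 : |s| ≤ c := by
      rw [abs_le]
      constructor <;> nlinarith
    have e2 : |s| * (1 - c) ≤ c * (1 - c) := mul_le_mul_of_nonneg_right e1 (by linarith)
    nlinarith

end Pool.Agent.TH928.KM
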